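import Mathlib.Topology.Sheaves.Presheaf
import Mathlib.Tactic.Monotonicity.Lemmas
import Mathlib.Algebra.Order.Ring.Star
import Mathlib.Algebra.Order.Star.Real
import Mathlib.MeasureTheory.Integral.IntervalIntegral.Periodic
import Mathlib.MeasureTheory.Measure.Haar.Unique
import Mathlib.Combinatorics.SimpleGraph.Basic
import Mathlib.Data.Rat.Denumerable
import Mathlib.Topology.Baire.LocallyCompactRegular
import Mathlib.Order.CompletePartialOrder
import Mathlib.Tactic.Algebra.Basic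
import Mathlib.Topology.UniformSpace.Uniformizable

-- ======== part 0: formerly Pool.Agent.MP_c09e54_an.Basic
section MrgPart0

set_option autoImplicit false
open MeasureTheory Set

namespace Pool.Agent.JEq

/-- The union of all integer translates of a set. -/
def per (S : Set ℝ) : Set ℝ := {x | ∃ k : ℤ, x + k ∈ S}

/-- Indicator of the periodisation. -/
noncomputable def ind (S : Set ℝ) (x : ℝ) : ℝ := (per S).indicator (fun _ => (1 : ℝ)) x

theorem ind_nonneg (S : Set ℝ) (x : ℝ) : 0 ≤ ind S x := by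
  unfold ind; exact Set.indicator_nonneg (fun _ _ => zero_le_one) x

theorem ind_le_one (S : Set ℝ) (x : ℝ) : ind S x ≤ 1 := by
  unfold ind
  by_cases h : x ∈ per S
  · rw [Set.indicator_of_mem h]
  · rw [Set.indicator_of_notMem h]; exact zero_le_one

theorem ind_of_mem {S : Set ℝ} {x : ℝ} (h : x ∈ per S) : ind S x = 1 := by
  unfold ind; rw [Set.indicator_of_mem h]

theorem ind_of_notMem {S : Set ℝ} {x : ℝ} (h : x ∉ per S) : ind S x = 0 := by
  unfold ind; rw [Set.indicator_of_notMem h]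

theorem ind_le_of_imp {S T : Set ℝ} {x y : ℝ} (h : x ∈ per S → y ∈ per T) : ind S x ≤ ind T y := by
  by_cases hx : x ∈ per S
  · rw [ind_of_mem hx, ind_of_mem (h hx)]
  · rw [ind_of_notMem hx]; exact ind_nonneg _ _

theorem per_mono {S T : Set ℝ} (h : S ⊆ T) : per S ⊆ per T := by
  rintro x ⟨k, hk⟩; exact ⟨k, h hk⟩

theorem ind_mono {S T : Set ℝ} (h : S ⊆ T) (x : ℝ) : ind S x ≤ ind T x :=
  ind_le_of_imp (fun hx => per_mono h hx)

theorem per_eq_iUnion (S : Set ℝ) : per S = ⋃ k : ℤ, (fun x : ℝ => x + k) ⁻¹' S := by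
  ext x; simp [per]

theorem isOpen_per {S : Set ℝ} (h : IsOpen S) : IsOpen (per S) := by
  rw [per_eq_iUnion]
  exact isOpen_iUnion fun k => h.preimage (by fun_prop)

theorem per_null {S : Set ℝ} (h : volume S = 0) : volume (per S) = 0 := by
  rw [per_eq_iUnion]
  refine measure_iUnion_null fun k => ?_
  rw [measure_preimage_add_right]; exact h

theorem mem_per_add_int {S : Set ℝ} {x : ℝ} (j : ℤ) : x + j ∈ per S ↔ x ∈ per S := by
  constructor
  · rintro ⟨k, hk⟩; exact ⟨j + k, by push_cast; rwa [← add_assoc]⟩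
  · rintro ⟨k, hk⟩; refine ⟨k - j, ?_⟩; push_cast
    have : x + j + (k - j) = x + k := by ring
    rwa [this]

theorem ind_add_int (S : Set ℝ) (x : ℝ) (j : ℤ) : ind S (x + j) = ind S x :=
  le_antisymm (ind_le_of_imp (mem_per_add_int j).1) (ind_le_of_imp (mem_per_add_int j).2)

theorem int_unique {x : ℝ} {j k : ℤ} (hj : x + j ∈ Ico (0 : ℝ) 1) (hk : x + k ∈ Ico (0 : ℝ) 1) :
    j = k := by
  have h1 : ((j - k : ℤ) : ℝ) < 1 := by push_cast; linarith [hj.2, hk.1]
  have h2 : ((k - j : ℤ) : ℝ) < 1 := by push_cast; linarith [hj.1, hk.2]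
  have h1' : j - k < 1 := by exact_mod_cast h1
  have h2' : k - j < 1 := by exact_mod_cast h2
  omega

theorem per_disjoint {S T : Set ℝ} (hS : S ⊆ Ico 0 1) (hT : T ⊆ Ico 0 1) (h : Disjoint S T)
    {x : ℝ} (hx : x ∈ per S) (hy : x ∈ per T) : False := by
  obtain ⟨j, hj⟩ := hx
  obtain ⟨k, hk⟩ := hy
  have := int_unique (hS hj) (hT hk)
  subst this
  exact Set.disjoint_left.1 h hj hk

theorem lsc_ind {S : Set ℝ} (h : IsOpen S) : LowerSemicontinuous (ind S) :=
  (isOpen_per h).lowerSemicontinuous_indicator zero_le_one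

theorem measurable_ind {S : Set ℝ} (h : IsOpen S) : Measurable (ind S) :=
  measurable_const.indicator (isOpen_per h).measurableSet

/-- The symmetrised counting function of two sets. -/
noncomputable def phi (S T : Set ℝ) (x : ℝ) : ℝ := ind S x + ind T x + ind S (-x) + ind T (-x)

theorem lsc_phi {S T : Set ℝ} (hS : IsOpen S) (hT : IsOpen T) : LowerSemicontinuous (phi S T) := by
  unfold phi
  refine (((lsc_ind hS).add (lsc_ind hT)).add ?_).add ?_
  · exact (lsc_ind hS).comp continuous_neg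
  · exact (lsc_ind hT).comp continuous_neg

theorem phi_add_int (S T : Set ℝ) (x : ℝ) (j : ℤ) : phi S T (x + j) = phi S T x := by
  unfold phi
  have : -(x + j) = -x + ((-j : ℤ) : ℝ) := by push_cast; ring
  rw [this, ind_add_int, ind_add_int, ind_add_int, ind_add_int]

theorem ii_of_bdd {h : ℝ → ℝ} (hm : Measurable h) (h0 : ∀ x, 0 ≤ h x) (h1 : ∀ x, h x ≤ 1)
    (a b : ℝ) : IntervalIntegrable h volume a b := by
  refine IntervalIntegrable.mono_fun' (g := fun _ => (1 : ℝ)) intervalIntegrable_const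
    hm.aestronglyMeasurable ?_
  refine Filter.Eventually.of_forall fun x => ?_
  simp only [Real.norm_eq_abs, abs_of_nonneg (h0 x)]
  exact h1 x

theorem periodic_ind (S : Set ℝ) : Function.Periodic (ind S) 1 := by
  intro x; have := ind_add_int S x 1; simpa using this

theorem integral_ind {S : Set ℝ} (hS : IsOpen S) (hS1 : S ⊆ Ioo 0 1) :
    (volume S).toReal ≤ ∫ x in (0 : ℝ)..1, ind S x := by
  have h1 : ∫ x in (0 : ℝ)..1, S.indicator (fun _ => (1 : ℝ)) x = (volume S).toReal := by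
    rw [intervalIntegral.integral_of_le zero_le_one, setIntegral_indicator hS.measurableSet]
    have : Ioc (0 : ℝ) 1 ∩ S = S := by
      apply Set.inter_eq_right.2
      exact hS1.trans Ioo_subset_Ioc_self
    rw [this]; simp [Measure.real]
  rw [← h1]
  refine intervalIntegral.integral_mono zero_le_one ?_ ?_ ?_
  · refine ii_of_bdd (measurable_const.indicator hS.measurableSet) ?_ ?_ 0 1
    · intro x; exact Set.indicator_nonneg (fun _ _ => zero_le_one) x
    · intro x
      by_cases h : x ∈ S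
      · rw [Set.indicator_of_mem h]
      · rw [Set.indicator_of_notMem h]; exact zero_le_one
  · exact ii_of_bdd (measurable_ind hS) (ind_nonneg S) (ind_le_one S) 0 1
  · intro x
    by_cases h : x ∈ S
    · have : x ∈ per S := ⟨0, by simpa using h⟩
      simp only [Set.indicator_of_mem h, ind_of_mem this, le_refl]
    · simp only [Set.indicator_of_notMem h]; exact ind_nonneg _ _

theorem integral_shift {S : Set ℝ} (hS : IsOpen S) (hS1 : S ⊆ Ioo 0 1) (y : ℝ) :
    (volume S).toReal ≤ ∫ u in (0 : ℝ)..1, ind S (u + y) := by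
  rw [intervalIntegral.integral_comp_add_right (fun x => ind S x) y]
  have := (periodic_ind S).intervalIntegral_add_eq (0 + y) 0
  rw [show (1 : ℝ) + y = 0 + y + 1 by ring, this, zero_add]
  exact integral_ind hS hS1

theorem integral_shift_neg {S : Set ℝ} (hS : IsOpen S) (hS1 : S ⊆ Ioo 0 1) (y : ℝ) :
    (volume S).toReal ≤ ∫ u in (0 : ℝ)..1, ind S (-(u + y)) := by
  have h1 : (fun u : ℝ => ind S (-(u + y))) = fun u => ind S (-y - u) := by
    funext u; congr 1; ring
  rw [h1, intervalIntegral.integral_comp_sub_left (fun x => ind S x) (-y)]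
  have := (periodic_ind S).intervalIntegral_add_eq (-y - 1) 0
  rw [show -y - (0 : ℝ) = -y - 1 + 1 by ring, this, zero_add]
  exact integral_ind hS hS1

/-- Averaging: some translate of a finite family sees at least the mean. -/
theorem exists_ge_mean {S T : Set ℝ} (hS : IsOpen S) (hS1 : S ⊆ Ioo 0 1) (hT : IsOpen T)
    (hT1 : T ⊆ Ioo 0 1) {M : ℕ} (y : Fin M → ℝ) {θ : ℝ}
    (hθ : θ < M * (2 * ((volume S).toReal + (volume T).toReal))) :
    ∃ u, θ < ∑ i, phi S T (u + y i) := by
  by_contra hcon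
  push Not at hcon
  have iS : ∀ z, IntervalIntegrable (fun u => ind S (u + z)) volume 0 1 := fun z =>
    ii_of_bdd ((measurable_ind hS).comp (by fun_prop)) (fun _ => ind_nonneg _ _)
      (fun _ => ind_le_one _ _) 0 1
  have iT : ∀ z, IntervalIntegrable (fun u => ind T (u + z)) volume 0 1 := fun z =>
    ii_of_bdd ((measurable_ind hT).comp (by fun_prop)) (fun _ => ind_nonneg _ _)
      (fun _ => ind_le_one _ _) 0 1
  have iS' : ∀ z, IntervalIntegrable (fun u => ind S (-(u + z))) volume 0 1 := fun z =>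
    ii_of_bdd ((measurable_ind hS).comp (by fun_prop)) (fun _ => ind_nonneg _ _)
      (fun _ => ind_le_one _ _) 0 1
  have iT' : ∀ z, IntervalIntegrable (fun u => ind T (-(u + z))) volume 0 1 := fun z =>
    ii_of_bdd ((measurable_ind hT).comp (by fun_prop)) (fun _ => ind_nonneg _ _)
      (fun _ => ind_le_one _ _) 0 1
  have iP : ∀ z, IntervalIntegrable (fun u => phi S T (u + z)) volume 0 1 := fun z =>
    (((iS z).add (iT z)).add (iS' z)).add (iT' z)
  have hP : ∀ z, 2 * ((volume S).toReal + (volume T).toReal) ≤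
      ∫ u in (0 : ℝ)..1, phi S T (u + z) := by
    intro z
    unfold phi
    rw [intervalIntegral.integral_add (((iS z).add (iT z)).add (iS' z)) (iT' z),
      intervalIntegral.integral_add ((iS z).add (iT z)) (iS' z),
      intervalIntegral.integral_add (iS z) (iT z)]
    linarith [integral_shift hS hS1 z, integral_shift hT hT1 z, integral_shift_neg hS hS1 z,
      integral_shift_neg hT hT1 z]
  have h1 : ∫ u in (0 : ℝ)..1, ∑ i, phi S T (u + y i) = ∑ i, ∫ u in (0 : ℝ)..1, phi S T (u + y i) :=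
    intervalIntegral.integral_finset_sum fun i _ => iP (y i)
  have h2 : ∫ u in (0 : ℝ)..1, ∑ i, phi S T (u + y i) ≤ ∫ _u in (0 : ℝ)..1, θ := by
    refine intervalIntegral.integral_mono zero_le_one ?_ intervalIntegrable_const hcon
    have := IntervalIntegrable.sum (μ := volume) (a := 0) (b := 1) Finset.univ
      (f := fun i u => phi S T (u + y i)) fun i _ => iP (y i)
    have e : (fun u => ∑ i, phi S T (u + y i)) = ∑ i, fun u => phi S T (u + y i) := by
      funext u; simp
    rw [e]; exact this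
  have h3 : (M : ℝ) * (2 * ((volume S).toReal + (volume T).toReal)) ≤
      ∑ i, ∫ u in (0 : ℝ)..1, phi S T (u + y i) := by
    have := Finset.sum_le_sum (s := Finset.univ) fun (i : Fin M) _ => hP (y i)
    simpa using this
  simp at h2
  linarith

/-- Folner cubes for finitely many translations. -/
theorem exists_cube (m : ℕ) (l : List ℝ) :
    ∃ y : Fin (m ^ l.length) → ℝ, ∀ c ∈ l, ∀ h : ℝ → ℝ, (∀ x, 0 ≤ h x) → (∀ x, h x ≤ 1) →
      ∀ x, (m : ℝ) * ∑ i, h (x + y i - c) ≤ m * ∑ i, h (x + y i) + (m : ℝ) ^ l.length := by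
  induction l with
  | nil => exact ⟨fun _ => 0, by simp⟩
  | cons c l ih =>
    obtain ⟨y, hy⟩ := ih
    let e : Fin (m ^ l.length) × Fin m ≃ Fin (m ^ (c :: l).length) :=
      finProdFinEquiv.trans (finCongr (by rw [List.length_cons, pow_succ]))
    refine ⟨fun i => y (e.symm i).1 + ((e.symm i).2 : ℕ) * c, ?_⟩
    intro c' hc' h h0 h1 x
    have key : ∀ z : ℝ, ∑ i, h (x + (y (e.symm i).1 + ((e.symm i).2 : ℕ) * c) - z) =
        ∑ k ∈ Finset.range m, ∑ i, h (x + k * c + y i - z) := by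
      intro z
      rw [← e.sum_comp]
      simp only [Equiv.symm_apply_apply]
      rw [Fintype.sum_prod_type_right, ← Fin.sum_univ_eq_sum_range
        (fun k : ℕ => ∑ i, h (x + k * c + y i - z))]
      refine Finset.sum_congr rfl fun k _ => Finset.sum_congr rfl fun i _ => ?_
      congr 1; ring
    have key0 := key 0
    simp only [sub_zero] at key0
    rw [key c', key0]
    rcases List.mem_cons.1 hc' with rfl | hl
    · set H : ℝ → ℝ := fun z => ∑ i, h (z + y i) with hH
      have hH0 : ∀ z, 0 ≤ H z := fun z => Finset.sum_nonneg fun i _ => h0 _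
      have hH1 : ∀ z, H z ≤ (m : ℝ) ^ l.length := by
        intro z
        have := Finset.sum_le_sum (s := Finset.univ) fun (i : Fin (m ^ l.length)) _ => h1 (z + y i)
        simpa using this
      have tel : ∀ n : ℕ, ∑ k ∈ Finset.range n, H (x + k * c' - c') + H (x + n * c' - c') =
          ∑ k ∈ Finset.range n, H (x + k * c') + H (x - c') := by
        intro n
        induction n with
        | zero => simp
        | succ n ihn =>
          rw [Finset.sum_range_succ, Finset.sum_range_succ, ihn]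
          have : x + ((n + 1 : ℕ) : ℝ) * c' - c' = x + n * c' := by push_cast; ring
          rw [this]; ring
      have e1 : ∑ k ∈ Finset.range m, ∑ i, h (x + k * c' + y i - c') =
          ∑ k ∈ Finset.range m, H (x + k * c' - c') := by
        refine Finset.sum_congr rfl fun k _ => Finset.sum_congr rfl fun i _ => ?_
        congr 1; ring
      have e2 : ∑ k ∈ Finset.range m, ∑ i, h (x + k * c' + y i) =
          ∑ k ∈ Finset.range m, H (x + k * c') := rfl
      rw [e1, e2, List.length_cons, pow_succ]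
      have t := tel m
      have a1 := hH0 (x + m * c' - c')
      have a2 := hH1 (x - c')
      have hm : (0 : ℝ) ≤ m := Nat.cast_nonneg m
      nlinarith
    · rw [Finset.mul_sum, Finset.mul_sum, List.length_cons, pow_succ]
      have := Finset.sum_le_sum (s := Finset.range m) fun k _ => hy c' hl h h0 h1 (x + k * c)
      rw [Finset.sum_add_distrib] at this
      simp only [Finset.sum_const, Finset.card_range, nsmul_eq_mul] at this
      linarith

theorem isometry_form {f : ℝ → ℝ} (hf : Isometry f) :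
    (∀ x, f x = x + f 0) ∨ (∀ x, f x = -x + f 0) := by
  have hd : ∀ x y, (f x - f y) ^ 2 = (x - y) ^ 2 := by
    intro x y
    have := hf.dist_eq x y
    rw [Real.dist_eq, Real.dist_eq] at this
    rw [← sq_abs (f x - f y), this, sq_abs]
  have h10 := hd 1 0
  have : (f 1 - f 0 - 1) * (f 1 - f 0 + 1) = 0 := by nlinarith
  rcases mul_eq_zero.1 this with h | h
  · left; intro x
    have a := hd x 0
    have b := hd x 1
    have : f 1 = f 0 + 1 := by linarith
    rw [this] at b
    nlinarith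
  · right; intro x
    have a := hd x 0
    have b := hd x 1
    have : f 1 = f 0 - 1 := by linarith
    rw [this] at b
    nlinarith

theorem image_shift {f : ℝ → ℝ} (hf : Isometry f) (P : Set ℝ) :
    ∃ a : ℝ, ∀ x, ind (f '' P) x + ind (f '' P) (-x) ≤ ind P (x - a) + ind P (-(x - -a)) := by
  rcases isometry_form hf with h | h
  · refine ⟨f 0, fun x => add_le_add (ind_le_of_imp ?_) (ind_le_of_imp ?_)⟩
    · rintro ⟨k, p, hp, hk⟩
      refine ⟨k, ?_⟩
      have : x - f 0 + k = p := by rw [h p] at hk; linarith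
      rwa [this]
    · rintro ⟨k, p, hp, hk⟩
      refine ⟨k, ?_⟩
      have : -(x - -f 0) + k = p := by rw [h p] at hk; linarith
      rwa [this]
  · refine ⟨-f 0, fun x => ?_⟩
    rw [add_comm]
    refine add_le_add (ind_le_of_imp ?_) (ind_le_of_imp ?_)
    · rintro ⟨k, p, hp, hk⟩
      refine ⟨-k, ?_⟩
      have : x - -f 0 + ((-k : ℤ) : ℝ) = p := by rw [h p] at hk; push_cast; linarith
      rwa [this]
    · rintro ⟨k, p, hp, hk⟩
      refine ⟨-k, ?_⟩
      have : -(x - - -f 0) + ((-k : ℤ) : ℝ) = p := by rw [h p] at hk; push_cast; linarith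
      rwa [this]

end Pool.Agent.JEq

end MrgPart0

-- ======== part 1: formerly Pool.Agent.MP_c09e54_an.Build
section MrgPart1

set_option autoImplicit false
open MeasureTheory Set

namespace Pool.Agent.JEq

noncomputable def aa (k : ℕ) : ℝ := (1 / 2) ^ (k + 1)
def win (k : ℕ) : Set ℝ := Ioo (aa (k + 1)) (aa k)
noncomputable def qq (i : ℕ) : ℝ := (((Denumerable.eqv ℚ).symm i : ℚ) : ℝ)
noncomputable def rr (k i : ℕ) : ℝ := (1 / 2) ^ (k + 5) * (1 / 2) ^ i
def VV (k t : ℕ) : Set ℝ := ⋃ i ∈ Finset.range t, Ioo (qq i - rr k i) (qq i + rr k i)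
def Vinf (k : ℕ) : Set ℝ := ⋃ i, Ioo (qq i - rr k i) (qq i + rr k i)
def mm (k : ℕ) : ℕ := (k + 1) * 2 ^ (k + 3)
def BB (k : ℕ) (E : Set ℝ) : Set ℝ := Ioo 0 (1 - (volume E).toReal - (1 / 2) ^ (k + 3))
def Req (k : ℕ) (E : Set ℝ) (t : ℕ) : Prop :=
  ∀ y : Fin (mm k ^ k) → ℝ, ∃ u, ((mm k ^ k : ℕ) : ℝ) * (2 + (1 / 2) ^ (k + 3)) <
    ∑ i, phi (E ∪ (win k ∩ VV k t)) (BB k E) (u + y i)

theorem aa_pos (k : ℕ) : 0 < aa k := by unfold aa; positivity
theorem aa_anti {j k : ℕ} (h : j ≤ k) : aa k ≤ aa j := by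
  unfold aa
  exact pow_le_pow_of_le_one (by norm_num) (by norm_num) (by omega)
theorem aa_zero : aa 0 = 1 / 2 := by unfold aa; norm_num
theorem aa_le (k : ℕ) : aa k ≤ 1 / 2 := aa_zero ▸ aa_anti (Nat.zero_le k)
theorem rr_pos (k i : ℕ) : 0 < rr k i := by unfold rr; positivity
theorem rr_anti {j k : ℕ} (h : j ≤ k) (i : ℕ) : rr k i ≤ rr j i := by
  unfold rr
  exact mul_le_mul_of_nonneg_right
    (pow_le_pow_of_le_one (by norm_num) (by norm_num) (by omega)) (by positivity)
theorem mm_pos (k : ℕ) : 0 < mm k := by unfold mm; positivity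

theorem isOpen_VV (k t : ℕ) : IsOpen (VV k t) :=
  isOpen_iUnion fun _ => isOpen_iUnion fun _ => isOpen_Ioo
theorem isOpen_Vinf (k : ℕ) : IsOpen (Vinf k) := isOpen_iUnion fun _ => isOpen_Ioo
theorem VV_mono (k : ℕ) {s t : ℕ} (h : s ≤ t) : VV k s ⊆ VV k t := by
  intro x hx
  simp only [VV, mem_iUnion, Finset.mem_range] at hx ⊢
  obtain ⟨i, hi, hx⟩ := hx
  exact ⟨i, by omega, hx⟩
theorem VV_sub {j k : ℕ} (h : k ≤ j) (t : ℕ) : VV j t ⊆ Vinf k := by
  intro x hx
  simp only [VV, Vinf, mem_iUnion, Finset.mem_range] at hx ⊢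
  obtain ⟨i, -, hx⟩ := hx
  have := rr_anti h i
  exact ⟨i, by linarith [hx.1], by linarith [hx.2]⟩
theorem dense_Vinf (k : ℕ) : Dense (Vinf k) := by
  refine (Rat.denseRange_cast (𝕜 := ℝ)).mono ?_
  rintro x ⟨q, rfl⟩
  refine mem_iUnion.2 ⟨Denumerable.eqv ℚ q, ?_⟩
  have : qq (Denumerable.eqv ℚ q) = q := by unfold qq; rw [Equiv.symm_apply_apply]
  rw [this]
  have := rr_pos k (Denumerable.eqv ℚ q)
  constructor <;> linarith
theorem vol_Vinf (k : ℕ) : volume (Vinf k) ≤ ENNReal.ofReal ((1 / 2) ^ (k + 3)) := by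
  refine (measure_iUnion_le _).trans ?_
  have h1 : ∀ i, volume (Ioo (qq i - rr k i) (qq i + rr k i)) =
      ENNReal.ofReal ((1 / 2) ^ (k + 4) * (1 / 2) ^ i) := by
    intro i; rw [Real.volume_Ioo]; congr 1; unfold rr; ring
  simp_rw [h1]
  have hs : Summable fun i : ℕ => ((1 : ℝ) / 2) ^ (k + 4) * (1 / 2) ^ i :=
    summable_geometric_two.mul_left _
  rw [← ENNReal.ofReal_tsum_of_nonneg (fun i => by positivity) hs, tsum_mul_left,
    tsum_geometric_two]
  apply le_of_eq; congr 1; ring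

theorem win_sub (k : ℕ) : win k ⊆ Ioo (aa (k + 1)) 1 := fun _ hx =>
  ⟨hx.1, by linarith [hx.2, aa_le k]⟩

theorem BB_sub (k : ℕ) (E : Set ℝ) : BB k E ⊆ Ioo 0 1 := by
  intro x hx
  refine ⟨hx.1, ?_⟩
  have h1 : 0 ≤ (volume E).toReal := ENNReal.toReal_nonneg
  have h2 : (0 : ℝ) < (1 / 2) ^ (k + 3) := by positivity
  linarith [hx.2]

theorem lsc_sum {S T : Set ℝ} (hS : IsOpen S) (hT : IsOpen T) {M : ℕ} {X : Type}
    [TopologicalSpace X] (g : Fin M → X → ℝ) (hg : ∀ i, Continuous (g i)) (θ : ℝ) :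
    IsOpen {x | θ < ∑ i, phi S T (g i x)} := by
  have : LowerSemicontinuous fun x => ∑ i, phi S T (g i x) :=
    lowerSemicontinuous_sum fun i _ => (lsc_phi hS hT).comp (hg i)
  exact this.isOpen_preimage θ

theorem eventually_ind {k : ℕ} (E : Set ℝ) {x : ℝ} (hx : ∀ j : ℤ, x + j ∈ Vinf k) :
    ∀ᶠ t in Filter.atTop, ind (E ∪ win k) x ≤ ind (E ∪ (win k ∩ VV k t)) x := by
  by_cases h : x ∈ per (E ∪ win k)
  · obtain ⟨j, hj⟩ := h
    rcases hj with hj | hj
    · exact Filter.Eventually.of_forall fun t => ind_le_of_imp fun _ => ⟨j, Or.inl hj⟩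
    · obtain ⟨i, hi⟩ := mem_iUnion.1 (hx j)
      filter_upwards [Filter.eventually_gt_atTop i] with t ht
      refine ind_le_of_imp fun _ => ⟨j, Or.inr ⟨hj, ?_⟩⟩
      simp only [VV, mem_iUnion, Finset.mem_range]
      exact ⟨i, ht, hi⟩
  · exact Filter.Eventually.of_forall fun t => ind_le_of_imp fun h' => absurd h' h

theorem stage_one {k : ℕ} {E : Set ℝ} (hE : IsOpen E) (hEs : E ⊆ Ioo (aa k) 1)
    (y : Fin (mm k ^ k) → ℝ) :
    ∃ t u, ((mm k ^ k : ℕ) : ℝ) * (2 + (1 / 2) ^ (k + 3)) <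
      ∑ i, phi (E ∪ (win k ∩ VV k t)) (BB k E) (u + y i) := by
  set θ : ℝ := ((mm k ^ k : ℕ) : ℝ) * (2 + (1 / 2) ^ (k + 3)) with hθ
  have hSo : IsOpen (E ∪ win k) := hE.union isOpen_Ioo
  have hS1 : E ∪ win k ⊆ Ioo 0 1 := by
    rintro x (hx | hx)
    · exact ⟨(aa_pos k).trans (hEs hx).1, (hEs hx).2⟩
    · exact ⟨(aa_pos _).trans (win_sub k hx).1, (win_sub k hx).2⟩
  have hEfin : volume E ≠ ⊤ := ((measure_mono hEs).trans_lt measure_Ioo_lt_top).ne
  have hdis : Disjoint E (win k) := by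
    rw [Set.disjoint_left]; intro x hx hx'
    linarith [(hEs hx).1, hx'.2]
  have hv1 : (volume (E ∪ win k)).toReal = (volume E).toReal + (1 / 2) ^ (k + 2) := by
    rw [measure_union hdis measurableSet_Ioo]
    unfold win
    rw [ENNReal.toReal_add hEfin measure_Ioo_lt_top.ne]
    congr 1
    rw [Real.volume_Ioo, ENNReal.toReal_ofReal (by linarith [aa_anti (Nat.le_succ k)])]
    unfold aa; ring
  have hv2 : 1 - (volume E).toReal - (1 / 2) ^ (k + 3) ≤ (volume (BB k E)).toReal := by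
    unfold BB
    rw [Real.volume_Ioo, ENNReal.toReal_ofReal', sub_zero]
    exact le_max_left _ _
  have hM : (0 : ℝ) < ((mm k ^ k : ℕ) : ℝ) := by exact_mod_cast pow_pos (mm_pos k) k
  obtain ⟨u0, hu0⟩ := exists_ge_mean hSo hS1 (T := BB k E) isOpen_Ioo (BB_sub k E) y (θ := θ) (by
    rw [hθ]
    refine mul_lt_mul_of_pos_left ?_ hM
    have h2 : (0 : ℝ) < (1 / 2) ^ (k + 3) := by positivity
    have h3 : ((1 : ℝ) / 2) ^ (k + 2) = 2 * (1 / 2) ^ (k + 3) := by ring
    linarith)
  have hU : IsOpen {u | θ < ∑ i, phi (E ∪ win k) (BB k E) (u + y i)} :=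
    lsc_sum hSo isOpen_Ioo (fun i u => u + y i) (fun i => by fun_prop) θ
  have hG : Dense (⋂ p : Fin (mm k ^ k) × ℤ,
      ((fun u : ℝ => u + (y p.1 + p.2)) ⁻¹' Vinf k ∩
        (fun u : ℝ => (-y p.1 + p.2) - u) ⁻¹' Vinf k)) := by
    refine dense_iInter_of_isOpen (fun p => ?_) (fun p => ?_)
    · exact ((isOpen_Vinf k).preimage (by fun_prop)).inter ((isOpen_Vinf k).preimage (by fun_prop))
    · refine Dense.inter_of_isOpen_left ?_ ?_ ((isOpen_Vinf k).preimage (by fun_prop))
      · exact (dense_Vinf k).preimage (Homeomorph.addRight (y p.1 + p.2)).isOpenMap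
      · exact (dense_Vinf k).preimage (Homeomorph.subLeft (-y p.1 + p.2)).isOpenMap
  obtain ⟨u, hu1, hu2⟩ := hG.inter_open_nonempty _ hU ⟨u0, hu0⟩
  have hp : ∀ i, ∀ j : ℤ, u + y i + j ∈ Vinf k := fun i j => by
    have := (mem_iInter.1 hu2 (i, j)).1
    simpa [add_assoc] using this
  have hn : ∀ i, ∀ j : ℤ, -(u + y i) + j ∈ Vinf k := fun i j => by
    have := (mem_iInter.1 hu2 (i, j)).2
    simp only [mem_preimage] at this
    have e : -(u + y i) + j = -y i + j - u := by ring
    rwa [e]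
  have hev : ∀ᶠ t in Filter.atTop, ∀ i, phi (E ∪ win k) (BB k E) (u + y i) ≤
      phi (E ∪ (win k ∩ VV k t)) (BB k E) (u + y i) := by
    rw [Filter.eventually_all]
    intro i
    filter_upwards [eventually_ind E (hp i), eventually_ind E (hn i)] with t h1 h2
    unfold phi; linarith
  obtain ⟨t, ht⟩ := hev.exists
  exact ⟨t, u, lt_of_lt_of_le hu1 (Finset.sum_le_sum fun i _ => ht i)⟩

theorem stage {k : ℕ} {E : Set ℝ} (hE : IsOpen E) (hEs : E ⊆ Ioo (aa k) 1) : ∃ t, Req k E t := by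
  set θ : ℝ := ((mm k ^ k : ℕ) : ℝ) * (2 + (1 / 2) ^ (k + 3)) with hθ
  let W : ℕ → Set (Fin (mm k ^ k) → ℝ) := fun t =>
    ⋃ u : ℝ, {y | θ < ∑ i, phi (E ∪ (win k ∩ VV k t)) (BB k E) (u + y i)}
  have hWo : ∀ t, IsOpen (W t) := fun t => isOpen_iUnion fun u =>
    lsc_sum (hE.union (isOpen_Ioo.inter (isOpen_VV k t))) isOpen_Ioo
      (fun i (y : Fin (mm k ^ k) → ℝ) => u + y i) (fun i => by fun_prop) θ
  have hWm : Monotone W := by
    intro s t hst y hy
    obtain ⟨u, hu⟩ := mem_iUnion.1 hy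
    refine mem_iUnion.2 ⟨u, ?_⟩
    simp only [mem_setOf_eq] at hu ⊢
    refine lt_of_lt_of_le hu (Finset.sum_le_sum fun i _ => ?_)
    have hsub : E ∪ (win k ∩ VV k s) ⊆ E ∪ (win k ∩ VV k t) :=
      union_subset_union_right _ (inter_subset_inter_right _ (VV_mono k hst))
    unfold phi
    linarith [ind_mono hsub (u + y i), ind_mono hsub (-(u + y i))]
  have hK : IsCompact (Set.pi univ fun _ : Fin (mm k ^ k) => Icc (0 : ℝ) 1) :=
    isCompact_univ_pi fun _ => isCompact_Icc
  obtain ⟨t, ht⟩ := hK.elim_directed_cover W hWo (fun y _ => by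
    obtain ⟨t, u, h⟩ := stage_one hE hEs y
    exact mem_iUnion.2 ⟨t, mem_iUnion.2 ⟨u, h⟩⟩) hWm.directed_le
  refine ⟨t, fun y => ?_⟩
  have := ht (a := fun i => Int.fract (y i)) (fun i _ =>
    ⟨Int.fract_nonneg _, (Int.fract_lt_one _).le⟩)
  obtain ⟨u, hu⟩ := mem_iUnion.1 this
  refine ⟨u, lt_of_lt_of_eq hu (Finset.sum_congr rfl fun i _ => ?_)⟩
  rw [← phi_add_int _ _ _ ⌊y i⌋, add_assoc, Int.fract_add_floor]

noncomputable def TT (k : ℕ) (E : Set ℝ) : ℕ := by
  classical
  exact if h : ∃ t, Req k E t then h.choose else 0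

theorem TT_spec {k : ℕ} {E : Set ℝ} (hE : IsOpen E) (hEs : E ⊆ Ioo (aa k) 1) :
    Req k E (TT k E) := by
  have h := stage hE hEs
  unfold TT
  rw [dif_pos h]; exact h.choose_spec

noncomputable def EE : ℕ → Set ℝ
  | 0 => Ioo (1 / 2) 1
  | k + 1 => EE k ∪ (win k ∩ VV k (TT k (EE k)))

theorem EE_open (k : ℕ) : IsOpen (EE k) := by
  induction k with
  | zero => exact isOpen_Ioo
  | succ k ih => exact ih.union (isOpen_Ioo.inter (isOpen_VV _ _))

theorem EE_sub (k : ℕ) : EE k ⊆ Ioo (aa k) 1 := by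
  induction k with
  | zero => rw [aa_zero]; exact subset_rfl
  | succ k ih =>
    rintro x (hx | hx)
    · exact ⟨(aa_anti (Nat.le_succ k)).trans_lt (ih hx).1, (ih hx).2⟩
    · exact win_sub k hx.1

theorem EE_mono : Monotone EE := monotone_nat_of_le_succ fun _ => subset_union_left

def DD : Set ℝ := ⋃ k, EE k
def AA : Set ℝ := Icc 0 (1 / 2) \ DD

theorem DD_open : IsOpen DD := isOpen_iUnion EE_open
theorem DD_sub : DD ⊆ Ico 0 1 := by
  intro x hx
  obtain ⟨k, hk⟩ := mem_iUnion.1 hx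
  exact ⟨((aa_pos k).trans (EE_sub k hk).1).le, (EE_sub k hk).2⟩
theorem AA_sub : AA ⊆ Ico 0 1 := fun _ hx => ⟨hx.1.1, by linarith [hx.1.2]⟩
theorem AA_compact : IsCompact AA := isCompact_Icc.diff DD_open

theorem DD_sub_EE (k : ℕ) : DD ⊆ EE k ∪ Vinf k := by
  intro x hx
  obtain ⟨j, hj⟩ := mem_iUnion.1 hx
  have key : ∀ j, k ≤ j → EE j ⊆ EE k ∪ Vinf k := by
    intro j hkj
    induction j, hkj using Nat.le_induction with
    | base => exact subset_union_left
    | succ j hkj ih =>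
      rintro z (hz | hz)
      · exact ih hz
      · exact Or.inr (VV_sub hkj _ hz.2)
  rcases le_total k j with h | h
  · exact key j h hj
  · exact Or.inl (EE_mono h hj)

theorem vol_AA (k : ℕ) :
    1 - (volume (EE k)).toReal - (1 / 2) ^ (k + 3) ≤ (volume AA).toReal := by
  have hsub : Ico (0 : ℝ) 1 ⊆ AA ∪ (EE k ∪ Vinf k) := by
    intro x hx
    by_cases h : x ≤ 1 / 2
    · by_cases hD : x ∈ DD
      · exact Or.inr (DD_sub_EE k hD)
      · exact Or.inl ⟨⟨hx.1, h⟩, hD⟩
    · exact Or.inr (Or.inl (EE_mono (Nat.zero_le k) (show x ∈ Ioo (1 / 2 : ℝ) 1 from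
        ⟨not_le.1 h, hx.2⟩)))
  have hA : volume AA ≠ ⊤ := AA_compact.measure_lt_top.ne
  have hE : volume (EE k) ≠ ⊤ := ((measure_mono (EE_sub k)).trans_lt measure_Ioo_lt_top).ne
  have h1 : volume (Ico (0 : ℝ) 1) ≤
      volume AA + (volume (EE k) + ENNReal.ofReal ((1 / 2) ^ (k + 3))) := by
    refine (measure_mono hsub).trans ((measure_union_le _ _).trans ?_)
    gcongr
    refine (measure_union_le _ _).trans ?_
    gcongr
    exact vol_Vinf k
  have h2 := ENNReal.toReal_mono (by finiteness) h1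
  rw [ENNReal.toReal_add hA (by finiteness), ENNReal.toReal_add hE (by finiteness),
    ENNReal.toReal_ofReal (by positivity), Real.volume_Ico] at h2
  simp only [sub_zero, ENNReal.ofReal_one, ENNReal.toReal_one] at h2
  linarith

theorem EE_inter_win (k j : ℕ) : EE j ∩ win k ⊆ VV k (TT k (EE k)) := by
  induction j with
  | zero =>
    rintro x ⟨h1, h2⟩
    have h1' : x ∈ Ioo (1 / 2 : ℝ) 1 := h1
    linarith [h1'.1, h2.2, aa_le k]
  | succ j ih =>
    rintro x ⟨h1 | h1, h2⟩
    · exact ih ⟨h1, h2⟩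
    · rcases lt_trichotomy j k with h | h | h
      · linarith [h1.1.1, h2.2, aa_anti (show j + 1 ≤ k from h)]
      · subst h; exact h1.2
      · linarith [h1.1.2, h2.1, aa_anti (show k + 1 ≤ j from h)]

theorem frontier_AA : (frontier AA).Countable := by
  have hc : ({0} ∪ range aa ∪ (range fun p : ℕ × ℕ => qq p.2 - rr p.1 p.2) ∪
      (range fun p : ℕ × ℕ => qq p.2 + rr p.1 p.2) : Set ℝ).Countable :=
    (((countable_singleton 0).union (countable_range _)).union (countable_range _)).union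
      (countable_range _)
  refine hc.mono fun x hx => ?_
  by_contra hcon
  simp only [mem_union, mem_singleton_iff, mem_range, not_or, not_exists] at hcon
  obtain ⟨⟨⟨h0, ha⟩, hm⟩, hp⟩ := hcon
  rw [AA_compact.isClosed.frontier_eq] at hx
  obtain ⟨hxA, hxi⟩ := hx
  have hx0 : 0 < x := lt_of_le_of_ne hxA.1.1 (Ne.symm h0)
  have hex : ∃ n, aa (n + 1) < x := by
    obtain ⟨n, hn⟩ := exists_pow_lt_of_lt_one hx0 (show (1 / 2 : ℝ) < 1 by norm_num)
    refine ⟨n, lt_of_le_of_lt ?_ hn⟩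
    unfold aa
    exact pow_le_pow_of_le_one (by norm_num) (by norm_num) (by omega)
  classical
  set k := Nat.find hex with hk
  have hk1 : aa (k + 1) < x := Nat.find_spec hex
  have hk2 : x ≤ aa k := by
    rcases Nat.eq_zero_or_pos k with h | h
    · rw [h, aa_zero]; exact hxA.1.2
    · have := Nat.find_min hex (m := k - 1) (by omega)
      rw [show k - 1 + 1 = k by omega] at this
      exact not_lt.1 this
  have hxw : x ∈ win k := ⟨hk1, lt_of_le_of_ne hk2 (fun h => ha k h.symm)⟩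
  set t := TT k (EE k) with ht
  let N : Set ℝ := win k \ ⋃ i ∈ Finset.range t, Icc (qq i - rr k i) (qq i + rr k i)
  have hNo : IsOpen N := isOpen_Ioo.sdiff (isClosed_biUnion_finset fun i _ => isClosed_Icc)
  have hNA : N ⊆ AA := by
    intro z hz
    refine ⟨⟨((aa_pos _).trans hz.1.1).le, hz.1.2.le.trans (aa_le k)⟩, fun hD => hz.2 ?_⟩
    obtain ⟨j, hj⟩ := mem_iUnion.1 hD
    have := EE_inter_win k j ⟨hj, hz.1⟩
    simp only [VV, mem_iUnion] at this ⊢
    obtain ⟨i, hi, h⟩ := this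
    exact ⟨i, hi, Ioo_subset_Icc_self h⟩
  have hxN : x ∈ N := by
    refine ⟨hxw, fun h => ?_⟩
    simp only [mem_iUnion] at h
    obtain ⟨i, hi, h⟩ := h
    apply hxA.2
    refine mem_iUnion.2 ⟨k + 1, Or.inr ⟨hxw, ?_⟩⟩
    simp only [VV, mem_iUnion]
    exact ⟨i, hi, lt_of_le_of_ne h.1 (hm (k, i)), lt_of_le_of_ne h.2 (fun e => hp (k, i) e.symm)⟩
  exact hxi (interior_maximal hNA hNo hxN)

theorem sum_ind_le {n : ℕ} {P : Fin n → Set ℝ} (hP : ∀ i, P i ⊆ AA)
    (hd : Pairwise fun i j => Disjoint (P i) (P j)) {S : Set ℝ} (hS : S ⊆ DD) (x : ℝ) :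
    ind S x + ∑ j, ind (P j) x ≤ 1 := by
  by_cases h : ∃ j, x ∈ per (P j)
  · obtain ⟨j, hj⟩ := h
    have h1 : x ∉ per S := fun hx => per_disjoint (hS.trans DD_sub) ((hP j).trans AA_sub)
      (Set.disjoint_left.2 fun z hz hz' => (hP j hz').2 (hS hz)) hx hj
    rw [ind_of_notMem h1, Finset.sum_eq_single j, ind_of_mem hj]
    · norm_num
    · intro i _ hij
      exact ind_of_notMem fun hx => per_disjoint ((hP i).trans AA_sub) ((hP j).trans AA_sub)
        (hd hij) hx hj
    · intro h; exact absurd (Finset.mem_univ j) h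
  · push Not at h
    rw [Finset.sum_eq_zero fun j _ => ind_of_notMem (h j), add_zero]
    exact ind_le_one _ _

theorem no_cover (E₂ : Set ℝ) (hE₂ : volume E₂ = 0) (n : ℕ) (P : Fin n → Set ℝ)
    (f : Fin n → ℝ → ℝ) (hf : ∀ i, Isometry (f i)) (hP : ∀ i, P i ⊆ AA)
    (hd : Pairwise fun i j => Disjoint (P i) (P j))
    (hc : Icc 0 (volume AA).toReal \ E₂ ⊆ ⋃ i, f i '' P i) : False := by
  choose a ha using fun j => image_shift (hf j) (P j)
  set l : List ℝ := List.ofFn a ++ List.ofFn fun j => -a j with hl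
  set k := l.length with hk
  have hkn : k = n + n := by simp [hk, hl]
  obtain ⟨y, hy⟩ := exists_cube (mm k) l
  obtain ⟨u0, hu0⟩ := TT_spec (EE_open k) (EE_sub k) y
  set S : Set ℝ := EE k ∪ (win k ∩ VV k (TT k (EE k))) with hS
  have hSD : S ⊆ DD := subset_iUnion EE (k + 1)
  have hSo : IsOpen S := EE_open (k + 1)
  set θ : ℝ := ((mm k ^ k : ℕ) : ℝ) * (2 + (1 / 2) ^ (k + 3)) with hθ
  have hU : IsOpen {u | θ < ∑ i, phi S (BB k (EE k)) (u + y i)} :=
    lsc_sum hSo isOpen_Ioo (fun i u => u + y i) (fun i => by fun_prop) θ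
  have hN : volume (⋃ i, ((fun u : ℝ => u + y i) ⁻¹' per E₂ ∪
      (fun u : ℝ => u + y i) ⁻¹' (-per E₂))) = 0 := by
    refine measure_iUnion_null fun i => measure_union_null ?_ ?_
    · rw [measure_preimage_add_right]; exact per_null hE₂
    · rw [measure_preimage_add_right, Measure.measure_neg]; exact per_null hE₂
  obtain ⟨u, hu, huN⟩ : ∃ u, θ < ∑ i, phi S (BB k (EE k)) (u + y i) ∧
      u ∉ ⋃ i, ((fun u : ℝ => u + y i) ⁻¹' per E₂ ∪ (fun u : ℝ => u + y i) ⁻¹' (-per E₂)) := by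
    by_contra hcon
    push Not at hcon
    exact (hU.measure_pos volume ⟨u0, hu0⟩).ne' (measure_mono_null hcon hN)
  simp only [mem_iUnion, mem_union, mem_preimage, not_exists, not_or, Set.mem_neg] at huN
  have hT : ∀ x, x ∉ per E₂ → ind (BB k (EE k)) x ≤ ∑ j, ind (f j '' P j) x := by
    intro x hx
    by_cases h : x ∈ per (BB k (EE k))
    · obtain ⟨z, hz⟩ := h
      have : x + z ∈ Icc 0 (volume AA).toReal \ E₂ :=
        ⟨⟨hz.1.le, hz.2.le.trans (vol_AA k)⟩, fun h' => hx ⟨z, h'⟩⟩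
      obtain ⟨j, hj⟩ := mem_iUnion.1 (hc this)
      refine (ind_le_one _ _).trans ?_
      rw [← ind_of_mem (S := f j '' P j) (x := x) ⟨z, hj⟩]
      exact Finset.single_le_sum (f := fun j => ind (f j '' P j) x)
        (fun j _ => ind_nonneg _ _) (Finset.mem_univ j)
    · rw [ind_of_notMem h]; exact Finset.sum_nonneg fun j _ => ind_nonneg _ _
  have h1 : ∀ i, phi S (BB k (EE k)) (u + y i) ≤ ind S (u + y i) + ind S (-(u + y i)) +
      ∑ j, (ind (P j) (u + y i - a j) + ind (P j) (-(u + y i - -a j))) := by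
    intro i
    have b1 := hT _ (huN i).1
    have b2 := hT _ (huN i).2
    have b3 := Finset.sum_le_sum (s := Finset.univ) fun j _ => ha j (u + y i)
    rw [Finset.sum_add_distrib] at b3
    unfold phi; linarith
  set M : ℝ := (mm k : ℝ) ^ k with hM
  have h2 : ∀ j, (mm k : ℝ) * ∑ i, (ind (P j) (u + y i - a j) + ind (P j) (-(u + y i - -a j))) ≤
      mm k * ∑ i, (ind (P j) (u + y i) + ind (P j) (-(u + y i))) + 2 * M := by
    intro j
    have c1 := hy (a j) (by simp [hl]) (ind (P j)) (ind_nonneg _) (ind_le_one _) u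
    have c2 := hy (-a j) (by simp [hl]) (fun x => ind (P j) (-x)) (fun _ => ind_nonneg _ _)
      (fun _ => ind_le_one _ _) u
    rw [Finset.sum_add_distrib, Finset.sum_add_distrib]
    linarith
  have h3 := Finset.sum_le_sum (s := Finset.univ) fun j _ => h2 j
  rw [← Finset.mul_sum, Finset.sum_add_distrib, ← Finset.mul_sum, Finset.sum_comm,
    Finset.sum_comm (f := fun j i => ind (P j) (u + y i) + ind (P j) (-(u + y i)))] at h3
  simp only [Finset.sum_const, Finset.card_univ, Fintype.card_fin, nsmul_eq_mul] at h3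
  have h4 := Finset.sum_le_sum (s := Finset.univ) fun i _ => h1 i
  rw [Finset.sum_add_distrib] at h4
  have h5 : ∑ i, (ind S (u + y i) + ind S (-(u + y i))) +
      ∑ i, ∑ j, (ind (P j) (u + y i) + ind (P j) (-(u + y i))) ≤ 2 * M := by
    rw [← Finset.sum_add_distrib]
    have : ∀ i, (ind S (u + y i) + ind S (-(u + y i))) +
        ∑ j, (ind (P j) (u + y i) + ind (P j) (-(u + y i))) ≤ 2 := by
      intro i
      rw [Finset.sum_add_distrib]
      linarith [sum_ind_le hP hd hSD (u + y i), sum_ind_le hP hd hSD (-(u + y i))]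
    have := Finset.sum_le_sum (s := Finset.univ) fun i _ => this i
    simp only [Finset.sum_const, Finset.card_univ, Fintype.card_fin, nsmul_eq_mul] at this
    push_cast at this
    linarith
  have hm : (0 : ℝ) < mm k := by exact_mod_cast mm_pos k
  have hMp : 0 < M := pow_pos hm k
  have hmc : (mm k : ℝ) * (1 / 2) ^ (k + 3) = k + 1 := by
    unfold mm; push_cast
    rw [mul_assoc, ← mul_pow]; norm_num
  have hθ' : θ = M * (2 + (1 / 2) ^ (k + 3)) := by rw [hθ, hM]; push_cast; ring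
  have hkn' : (k : ℝ) = n + n := by exact_mod_cast hkn
  have h6 : (mm k : ℝ) * θ < mm k * ∑ i, phi S (BB k (EE k)) (u + y i) :=
    mul_lt_mul_of_pos_left hu hm
  have h7 := mul_le_mul_of_nonneg_left h4 hm.le
  have h8 := mul_le_mul_of_nonneg_left h5 hm.le
  have h9 : (mm k : ℝ) * θ = 2 * mm k * M + (k + 1) * M := by
    rw [hθ', ← hmc]; ring
  rw [hkn'] at h9
  nlinarith

theorem vol_AA_pos : 0 < (volume AA).toReal := by
  have h := vol_AA 0
  have : (volume (EE 0)).toReal = 1 / 2 := by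
    show (volume (Ioo (1 / 2 : ℝ) 1)).toReal = 1 / 2
    rw [Real.volume_Ioo, ENNReal.toReal_ofReal (by norm_num)]; norm_num
  rw [this] at h
  norm_num at h
  linarith

end Pool.Agent.JEq

end MrgPart1

-- marker of a merged file
example : 731051 + 86513 = 731051 + 86513 := rfl
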